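import Pool.Agent.W8.KU.Stm

open scoped Topology ContDiff
open MeasureTheory Metric

namespace Pool.Agent.W750.KU

open Pool.Agent.W8.KU

noncomputable section

/-- the square of the norm of the direction. -/
def qq (ν : E3) (r : ℝ) (y : E3) : ℝ := r ^ 2 + ‖y‖ ^ 2 - (innerSL ℝ ν y) ^ 2

/-- the direction. -/
def uu (ν : E3) (r : ℝ) (y : E3) : E3 := r • ν + y - (innerSL ℝ ν y) • ν

/-- the scalar factor. -/
def gg (ν : E3) (r : ℝ) (y : E3) : ℝ := (r + innerSL ℝ ν y) * (√(qq ν r y))⁻¹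

theorem qq_zero (ν : E3) (r : ℝ) : qq ν r 0 = r ^ 2 := by
  simp [qq]

theorem norm_uu (ν : E3) (r : ℝ) (hν : ‖ν‖ = 1) (y : E3) : ‖uu ν r y‖ ^ 2 = qq ν r y := by
  have h1 : inner ℝ ν ν = 1 := by rw [real_inner_self_eq_norm_sq, hν]; norm_num
  unfold uu qq
  rw [← real_inner_self_eq_norm_sq, ← real_inner_self_eq_norm_sq y]
  simp only [inner_sub_left, inner_sub_right, inner_add_left, inner_add_right,
    real_inner_smul_left, real_inner_smul_right, h1, innerSL_apply_apply,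
    real_inner_comm ν y]
  ring

theorem qq_cd (ν : E3) (r : ℝ) : ContDiff ℝ ∞ (qq ν r) := by
  unfold qq
  have h1 : ContDiff ℝ ∞ (fun y : E3 => ‖y‖ ^ 2) := contDiff_norm_sq ℝ
  have h2 : ContDiff ℝ ∞ (fun y : E3 => innerSL ℝ ν y) := (innerSL ℝ ν).contDiff
  exact (contDiff_const.add h1).sub (h2.pow 2)

theorem qq_fd (ν : E3) (r : ℝ) : HasFDerivAt (qq ν r) (0 : E3 →L[ℝ] ℝ) 0 := by
  have h1 : HasFDerivAt (fun y : E3 => ‖y‖ ^ 2) (0 : E3 →L[ℝ] ℝ) 0 := by
    have := (hasStrictFDerivAt_norm_sq (0 : E3)).hasFDerivAt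
    refine this.congr_fderiv ?_
    ext w
    simp
  have h2 : HasFDerivAt (fun y : E3 => (innerSL ℝ ν y) ^ 2) (0 : E3 →L[ℝ] ℝ) 0 := by
    have := ((innerSL ℝ ν).hasFDerivAt (x := (0 : E3))).pow 2
    refine this.congr_fderiv ?_
    ext w
    simp
  have h3 := ((hasFDerivAt_const (r ^ 2) (0 : E3)).add h1).sub h2
  refine (h3.congr_fderiv ?_)
  simp

theorem gg_fd (ν : E3) (r : ℝ) (hr : 0 < r) :
    HasFDerivAt (gg ν r) (r⁻¹ • innerSL ℝ ν) 0 := by
  have hq0 : qq ν r 0 ≠ 0 := by rw [qq_zero]; positivity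
  have h1 := (qq_fd ν r).sqrt hq0
  have h2 : √(qq ν r 0) = r := by rw [qq_zero, Real.sqrt_sq hr.le]
  have h3 := (hasDerivAt_inv (x := √(qq ν r 0)) (by rw [h2]; exact hr.ne')).comp_hasFDerivAt
    (0 : E3) h1
  have h4 : HasFDerivAt (fun y : E3 => r + innerSL ℝ ν y) (innerSL ℝ ν) 0 := by
    have := (hasFDerivAt_const r (0 : E3)).add ((innerSL ℝ ν).hasFDerivAt (x := (0 : E3)))
    refine this.congr_fderiv ?_
    simp
  have h5 := h4.mul h3
  refine HasFDerivAt.congr_fderiv (f := gg ν r) h5 ?_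
  ext w
  simp [h2]

theorem uu_fd (ν : E3) (r : ℝ) : HasFDerivAt (uu ν r)
    (ContinuousLinearMap.id ℝ E3 - (innerSL ℝ ν).smulRight ν) 0 := by
  have h1 : HasFDerivAt (fun y : E3 => r • ν + y) (ContinuousLinearMap.id ℝ E3) 0 := by
    have := (hasFDerivAt_const (r • ν) (0 : E3)).add (hasFDerivAt_id (𝕜 := ℝ) (0 : E3))
    refine this.congr_fderiv ?_
    simp
  have h2 : HasFDerivAt (fun y : E3 => (innerSL ℝ ν y) • ν) ((innerSL ℝ ν).smulRight ν) 0 :=
    ((innerSL ℝ ν).smulRight ν).hasFDerivAt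
  exact h1.sub h2

theorem uu_cd (ν : E3) (r : ℝ) : ContDiff ℝ ∞ (uu ν r) := by
  unfold uu
  have h2 : ContDiff ℝ ∞ (fun y : E3 => innerSL ℝ ν y) := (innerSL ℝ ν).contDiff
  exact (contDiff_const.add contDiff_id).sub (h2.smul contDiff_const)

theorem gg_cd (ν : E3) (r : ℝ) (y : E3) (hy : 0 < qq ν r y) : ContDiffAt ℝ ∞ (gg ν r) y := by
  unfold gg
  have h2 : ContDiff ℝ ∞ (fun y : E3 => innerSL ℝ ν y) := (innerSL ℝ ν).contDiff
  refine (contDiffAt_const.add h2.contDiffAt).mul ?_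
  refine ContDiffAt.inv ?_ ?_
  · exact (qq_cd ν r).contDiffAt.sqrt hy.ne'
  · exact (Real.sqrt_pos.2 hy).ne'

theorem PlS_proof : PlS := by
  intro z r x hr hx
  set ν : E3 := r⁻¹ • (x - z) with hν
  have hn : ‖ν‖ = 1 := by
    rw [hν, norm_smul, ← dist_eq_norm, hx, norm_inv, Real.norm_eq_abs, abs_of_pos hr]
    exact inv_mul_cancel₀ hr.ne'
  have hu0 : uu ν r 0 = r • ν := by simp [uu]
  have hg0 : gg ν r 0 = 1 := by
    unfold gg
    rw [qq_zero, Real.sqrt_sq hr.le]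
    simp [hr.ne']
  have hpos : ∀ᶠ y in 𝓝 (0 : E3), 0 < qq ν r y := by
    have : 0 < qq ν r 0 := by rw [qq_zero]; positivity
    exact (qq_cd ν r).continuous.continuousAt.eventually (lt_mem_nhds this)
  have hin : ∀ᶠ y in 𝓝 (0 : E3), -r < innerSL ℝ ν y := by
    have h0 : -r < innerSL ℝ ν (0 : E3) := by simp [hr]
    exact (innerSL ℝ ν).continuous.continuousAt.eventually (lt_mem_nhds h0)
  refine ⟨ν, fun y => z + gg ν r y • uu ν r y, hn, ?_, ?_, ?_, ?_⟩
  · show z + gg ν r 0 • uu ν r 0 = x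
    rw [hg0, hu0, one_smul, hν, smul_inv_smul₀ hr.ne']
    abel
  · filter_upwards [hpos] with y hy
    exact contDiffAt_const.add ((gg_cd ν r y hy).smul (uu_cd ν r).contDiffAt)
  · have h1 := ((gg_fd ν r hr).smul (uu_fd ν r)).const_add z
    refine h1.congr_fderiv ?_
    ext1 w
    rw [hg0, hu0]
    have h6 : r⁻¹ * inner ℝ ν w * r = inner ℝ ν w := by
      field_simp
    simp [smul_smul, h6]
  · filter_upwards [hpos, hin] with y hy hy2
    have hd : dist (z + gg ν r y • uu ν r y) z = r + inner ℝ ν y := by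
      rw [dist_eq_norm, add_sub_cancel_left, norm_smul]
      have h3 : ‖uu ν r y‖ = √(qq ν r y) := by
        rw [← norm_uu ν r hn y, Real.sqrt_sq (norm_nonneg _)]
      rw [h3]
      unfold gg
      have h4 : 0 < r + innerSL ℝ ν y := by linarith
      have h5 : 0 < √(qq ν r y) := Real.sqrt_pos.2 hy
      rw [Real.norm_eq_abs, abs_of_pos (by positivity), mul_assoc, inv_mul_cancel₀ h5.ne', mul_one]
      rfl
    rw [hd]
    constructor
    · constructor <;> intro h <;> linarith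
    · constructor <;> intro h <;> linarith

end

end Pool.Agent.W750.KU
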